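import Pool.Agent.Q235.FL.Lift

/-!
# MP_61df98_mp: nonzero singular points of the antisymmetric Floquet isospectral variety

The definitions (`LMat`, `DPol`, `UGen`, `pPol`, `IIdeal`, `VSet`, `evalQ`, `mult`, `PartA`,
`PartB`, `PartC`, `Conjecture`) are in `Pool.Agent.Q235.FL.Def`.

The potentials `(a, i a, 0, -i a, -a)`, `a ^ 2 = 1 - 2 i`, of period `5` and
`(1 - i, 1 + i, -1 - i, -1 + i)` of period `4` are antisymmetric and have the same discriminant
as the zero potential. Repeated at least twice they are singular points: the gradient of every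
coefficient of `D_V` is periodic there with the same period, so it kills an antisymmetric
direction.
-/

namespace Pool.Agent.Results.MP_61df98_mp.SingularLifts

open Pool.Agent.Q235.FL

lemma sq_root : ∃ a : ℂ, a ^ 2 = 1 - 2 * Complex.I ∧ a ≠ 0 := by
  obtain ⟨a, ha⟩ := IsAlgClosed.exists_pow_nat_eq (1 - 2 * Complex.I) two_pos
  refine ⟨a, ha, ?_⟩
  rintro rfl
  have h := congrArg Complex.re ha
  simp at h

/-- the lifts of the potential of period five -/
lemma lift5 {a : ℂ} (ha : a ^ 2 = 1 - 2 * Complex.I) {K q : ℕ} (hK : 2 ≤ K) (hq : q = K * 5) :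
    ∃ h : (fun i : Fin (q / 2) => v5 a i) ∈ VSet q, mult _ h ≠ 1 :=
  sing (by norm_num) hK (v5_per a) (v5_anti a) (v5_tr ha) hq

/-- the lifts of the potential of period four -/
lemma lift4 {K q : ℕ} (hK : 2 ≤ K) (hq : q = K * 4) :
    ∃ h : (fun i : Fin (q / 2) => v4 i) ∈ VSet q, mult _ h ≠ 1 :=
  sing (by norm_num) hK v4_per v4_anti v4_tr hq

/-- **Parts (a) and (b) of the conjecture are false.** Part (a) fails for every odd multiple
`q ≥ 15` of `5`, part (b) fails for every multiple of `20`. -/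
theorem result : (∀ k, 3 ≤ k → Odd k → ¬PartA (5 * k)) ∧ (∀ k, 1 ≤ k → ¬PartB (20 * k)) ∧
    ¬Conjecture := by
  obtain ⟨a, ha, ha0⟩ := sq_root
  have hA : ∀ k, 3 ≤ k → Odd k → ¬PartA (5 * k) := by
    intro k hk _ hP
    obtain ⟨h, hm⟩ := lift5 ha (K := k) (q := 5 * k) (by omega) (mul_comm _ _)
    refine hm (hP _ h fun h0 => ha0 ?_)
    have h1 := congrFun h0 ⟨0, by omega⟩
    simpa [v5] using h1
  have hB : ∀ k, 1 ≤ k → ¬PartB (20 * k) := by
    rintro k hk ⟨⟨b, hb⟩, -⟩
    obtain ⟨h5, hm5⟩ := lift5 ha (K := 4 * k) (q := 20 * k) (by omega) (by ring)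
    obtain ⟨h4, hm4⟩ := lift4 (K := 5 * k) (q := 20 * k) (by omega) (by ring)
    have n5 : (fun i : Fin (20 * k / 2) => v5 a i) ≠ 0 := by
      intro h0
      have h1 := congrFun h0 ⟨0, by omega⟩
      exact ha0 (by simpa [v5] using h1)
    have n4 : (fun i : Fin (20 * k / 2) => v4 i) ≠ 0 := by
      intro h0
      have h1 := congrFun h0 ⟨0, by omega⟩
      simp only [v4, Nat.zero_mod, if_true, Pi.zero_apply] at h1
      have h2 := congrArg Complex.re h1
      simp at h2
    have m5 : (fun i : Fin (20 * k / 2) => v5 a i) ∈ ({b, -b, star b, -star b} : Set _) := by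
      rw [← hb]
      exact ⟨h5, n5, hm5⟩
    have m4 : (fun i : Fin (20 * k / 2) => v4 i) ∈ ({b, -b, star b, -star b} : Set _) := by
      rw [← hb]
      exact ⟨h4, n4, hm4⟩
    have hi : 2 < 20 * k / 2 := by omega
    have key : ∀ x ∈ ({b, -b, star b, -star b} : Set (Fin (20 * k / 2) → ℂ)),
        x ⟨2, hi⟩ = 0 ↔ b ⟨2, hi⟩ = 0 := by
      rintro x (rfl | rfl | rfl | rfl)
      · rfl
      · rw [Pi.neg_apply, neg_eq_zero]
      · rw [Pi.star_apply, star_eq_zero]
      · rw [Pi.neg_apply, neg_eq_zero, Pi.star_apply, star_eq_zero]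
    have k5 := (key _ m5).1 (by simp [v5])
    have k4 := (key _ m4).2 k5
    have h3 : v4 2 = 0 := k4
    simp only [v4] at h3
    have h2 := congrArg Complex.re h3
    simp at h2
  refine ⟨hA, hB, fun hC => ?_⟩
  exact hA 3 le_rfl (by decide) ((hC (5 * 3) (by norm_num)).1 (by decide))

end Pool.Agent.Results.MP_61df98_mp.SingularLifts
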